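import Pool.Agent.H.MP_0447ec_lc.LV.Defs
import Pool.Agent.H.MP_0447ec_lc.LV.StDefs
import Pool.Agent.H.MP_0447ec_lc.PS.DefsC

/-!
# The slices of a formula
-/

namespace Pool.Agent.H.MP_0447ec_lc.SL

open Pool.Agent.H.MP_0447ec_lc.PS Pool.Agent.H.MP_0447ec_lc.PS.Fm

/-- The occurrences of variables in a formula. -/
def occ : Fm → List (List Bool)
  | .var w => [w]
  | .neg A => occ A
  | .and A B => occ A ++ occ B
  | .or A B => occ A ++ occ B
  | .imp A B => occ A ++ occ B

/-- The variables of a formula, each of them once. -/
def vlist (A : Fm) : List (List Bool) := (occ A).dedup

/-- The conjunction of a list of formulas; the empty one is `p → p` for the variable `p` with the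
empty name. -/
def conj (Γ : List Fm) : Fm := Γ.foldr Fm.and (imp (var []) (var []))

/-- The disjunction of a list of formulas; the empty one is `¬(p → p)` for the variable `p` with
the empty name. -/
def disj (Γ : List Fm) : Fm := Γ.foldr Fm.or (neg (imp (var []) (var [])))

/-- The name of the bit number `b` of the register number `J`. -/
def bitName (J b : ℕ) : List Bool := List.replicate (J + 1) true ++ false :: List.replicate b true

/-- The `c` bits of the register number `J` are the `c` lowest binary digits of `i`. -/
def holds (c J i : ℕ) : Fm :=
  conj ((List.range c).map (fun b => if i.testBit b then var (bitName J b)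
    else neg (var (bitName J b))))

/-- The number of bits of a register: one more than the logarithm of the number of variables. -/
def width (A : Fm) : ℕ := Nat.log 2 (vlist A).length + 1

/-- One of `j` registers contains the number of the variable `x` of `A`; the variables of `A` have
the numbers `1, 2, ...`. -/
def hit (A : Fm) (j : ℕ) (x : List Bool) : Fm :=
  disj ((List.range j).map (fun J => holds (width A) J ((vlist A).idxOf x + 1)))

/-- The slice number `j` of `A`: for `s = true` it says that `A` is true if the true variables are
those whose numbers are in `j` registers, so that at most `j` variables are true; for `s = false`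
the false variables are those whose numbers are in the registers. -/
def slice (s : Bool) (A : Fm) (j : ℕ) : Fm :=
  A.subst (fun x => if s then hit A j x else neg (hit A j x))

/-- Binary code of a list of sequences of formulas. -/
def codeTable (T : List (List Fm)) : List Bool := T.flatMap (fun π => true :: codeProof π) ++ [false]

/-- Binary code of a formula, a number in unary and two lists of sequences of formulas. -/
def codeTables (x : (Fm × ℕ) × List (List Fm) × List (List Fm)) : List Bool :=
  true :: (codeQuery x.1 ++ (true :: (codeTable x.2.1 ++ codeTable x.2.2)))

end Pool.Agent.H.MP_0447ec_lc.SL
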