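import Pool.Agent.H.MP_0447ec_lc.SL.Defs
import Pool.Agent.H.MP_0447ec_lc.LV.Slices
import Pool.Agent.H.MP_0447ec_lc.LV.SubTime
import Pool.Agent.H.MP_0447ec_lc.PS.Canon2

/-!
# Frege with the permutation rule and the slices of a formula
-/

namespace Pool.Agent.H.MP_0447ec_lc.SL

open Pool.Agent.H.MP_0447ec_lc.PS Pool.Agent.H.MP_0447ec_lc.PS.Fm Pool.Agent.H.MP_0447ec_lc.PT

theorem occ_eq (A : Fm) : occ A = nms A := by
  induction A with
  | var w => rfl
  | neg A ih => exact ih
  | and A B ihA ihB => simp [occ, nms, ihA, ihB]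
  | or A B ihA ihB => simp [occ, nms, ihA, ihB]
  | imp A B ihA ihB => simp [occ, nms, ihA, ihB]

theorem dd_eq (V : List Nm) : dd V = V.dedup := by
  induction V with
  | nil => rfl
  | cons t V ih =>
    rw [dd_cons]
    by_cases h : t ∈ V
    · rw [if_pos (mem_dd.2 h), List.dedup_cons_of_mem h, ih]
    · rw [if_neg (fun h' => h (mem_dd.1 h')), List.dedup_cons_of_notMem h, ih]

theorem vlist_eq (A : Fm) : vlist A = varList A := by
  unfold vlist varList
  rw [occ_eq, dd_eq]

theorem width_eq (A : Fm) : width A = bitLen A := by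
  unfold width bitLen
  rw [vlist_eq]

theorem holds_eq (c J i : ℕ) : holds c J (i + 1) = eqr [] (regName c J) (numCode c i) := by
  unfold holds eqr regName numCode
  rw [List.zip_map', List.map_map]
  rfl

theorem sz_subst_flp (A : Fm) : sz (A.subst flp) ≤ 3 * sz A := by
  induction A with
  | var w =>
    show sz (neg (var w)) ≤ _
    rw [sz_neg, sz_var]
    have := PT.sz_pos w
    omega
  | neg A ih => simp only [Fm.subst, sz_neg]; omega
  | and A B ihA ihB => simp only [Fm.subst, sz_and]; omega
  | or A B ihA ihB => simp only [Fm.subst, sz_or]; omega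
  | imp A B ihA ihB => simp only [Fm.subst, sz_imp]; omega

theorem sz_map_flp (π : List Fm) : sz (π.map (Fm.subst flp)) ≤ 3 * sz π := by
  induction π with
  | nil => simp
  | cons A π ih =>
    rw [List.map_cons, sz_lcons, sz_lcons]
    have := sz_subst_flp A
    omega

theorem log_mul_four {t : ℕ} (ht : 2 ≤ t) : Nat.log 2 (4 * t) + 1 ≤ 4 * Nat.log 2 t := by
  have h1 : 1 ≤ Nat.log 2 t := Nat.log_pos (by norm_num) ht
  have h2 : Nat.log 2 (4 * t) = Nat.log 2 t + 2 := by
    rw [show 4 * t = t * 2 * 2 by ring, Nat.log_mul_base (by norm_num) (by omega),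
      Nat.log_mul_base (by norm_num) (by omega)]
  omega

theorem hit_eq (A : Fm) (j : ℕ) (x : Nm) :
    hit A j x = anyr [] ((List.range j).map (regName (bitLen A)))
      (numCode (bitLen A) ((varList A).idxOf x)) := by
  unfold hit anyr
  show dj [] _ = dj [] _
  rw [List.map_map]
  congr 1
  refine List.map_congr_left ?_
  intro J _
  rw [vlist_eq, width_eq, holds_eq]
  rfl

theorem slice_true (A : Fm) (j : ℕ) : slice true A j = PS.slice A j := by
  unfold SL.slice PS.slice
  refine Fm.subst_congr ?_
  intro x _
  simp [hit_eq]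

theorem slice_false (A : Fm) (j : ℕ) : slice false A j = PS.slice (negVars A) j := by
  have h1 : varList (negVars A) = varList A := by
    unfold varList negVars
    rw [nms_negv]
  have h2 : bitLen (negVars A) = bitLen A := by unfold bitLen; rw [h1]
  unfold SL.slice PS.slice
  rw [h1, h2]
  unfold negVars
  rw [Fm.subst_subst]
  refine Fm.subst_congr ?_
  intro x _
  simp [hit_eq, Fm.subst]

theorem codeTable_eq (T : List (List Fm)) : codeTable T = (enc T).bits :=
  code_list codeProof_eq T

theorem codeTables_eq (x : (Fm × ℕ) × List (List Fm) × List (List Fm)) :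
    codeTables x = (enc x).bits := by
  obtain ⟨q, T1, T2⟩ := x
  simp only [codeTables, codeQuery_eq, codeTable_eq, enc_pair, D.bits]

theorem characterization {F : List Rule} (hF : IsFrege F) :
    ∃ (c : ℕ) (f : Bool → List Fm × ℕ → List Fm)
      (g : (Fm × ℕ) × List (List Fm) × List (List Fm) → List Fm),
      (∀ s, Nonempty (Turing.TM2ComputableInPolyTime codeProofNat codeProof (f s))) ∧
      Nonempty (Turing.TM2ComputableInPolyTime codeTables codeProof g) ∧
      (∀ (A : Fm) (π : List Fm), PermProof F A π → ∀ (s : Bool) (j : ℕ), 0 < j →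
        SubstProof F (slice s A j) (f s (π, j)) ∧
        numVars (f s (π, j)) ≤ c * j * Nat.log 2 (codeProof π).length) ∧
      ∀ (A : Fm) (M : ℕ) (T : Bool → List (List Fm)),
        (∀ s, (T s).length = (vlist A).length) →
        (∀ (s : Bool) (j : ℕ) (hj : j < (T s).length),
          SubstProof F (slice s A (j + 1)) (T s)[j] ∧
          numVars (T s)[j] ≤ (j + 1) * Nat.log 2 M) →
        PermProof F A (g ((A, M), T true, T false)) := by
  obtain ⟨C, f, hf, hf'⟩ := sliceA hF
  obtain ⟨e, he, he'⟩ := sliceB hF
  have hfl : Poly (fun π : List Fm => π.map (Fm.subst flp)) :=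
    PT.Poly.map (f := fun (_ : List Fm) (B : Fm) => B.subst flp)
      (Poly.flpSubst (by fun_prop)) (by fun_prop)
  have hff : ∀ s : Bool, Poly (fun x : List Fm × ℕ =>
      if s then f x else f (x.1.map (Fm.subst flp), x.2)) := by
    intro s
    cases s with
    | true => simpa using hf
    | false =>
      have : Poly (fun x : List Fm × ℕ => f (x.1.map (Fm.subst flp), x.2)) :=
        hf.comp (Poly.pair (hfl.comp (by fun_prop)) (by fun_prop))
      simpa using this
  refine ⟨4 * C, fun s x => if s then f x else f (x.1.map (Fm.subst flp), x.2),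
    fun x => e ((Nat.log 2 x.1.2, x.1.2 + 1), x.1.1, x.2.1, x.2.2), ?_, ?_, ?_, ?_⟩
  · intro s
    exact (tm2_iff_poly codeProofNat_eq codeProof_eq _).2 (hff s)
  · refine (tm2_iff_poly codeTables_eq codeProof_eq _).2 (he.comp ?_)
    fun_prop
  · intro A π hπ s j hj
    have ht : 2 ≤ sz π := two_le_sz (fun h => by
      have h5 := hπ.2
      rw [h] at h5
      simp at h5)
    have hlog : ∀ t : ℕ, t ≤ 4 * sz π → C * j * (Nat.log 2 t + 1) ≤
        4 * C * j * Nat.log 2 (sz π) := by
      intro t ht'
      have h1 : Nat.log 2 t ≤ Nat.log 2 (4 * sz π) := Nat.log_mono_right ht'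
      have h2 := log_mul_four ht
      calc C * j * (Nat.log 2 t + 1) ≤ C * j * (4 * Nat.log 2 (sz π)) :=
            Nat.mul_le_mul_left _ (by omega)
        _ = 4 * C * j * Nat.log 2 (sz π) := by ring
    rw [code_length]
    cases s with
    | true =>
      obtain ⟨h1, h2⟩ := hf' A π j hj hπ
      rw [slice_true]
      refine ⟨by simpa using h1, ?_⟩
      simp only [if_true]
      exact h2.trans (hlog _ (by omega))
    | false =>
      obtain ⟨h1, h2⟩ := hf' (negVars A) _ j hj (sl_negVars_proof hπ)
      rw [slice_false]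
      refine ⟨by simpa using h1, ?_⟩
      simp only [Bool.false_eq_true, if_false]
      have := sz_map_flp π
      exact h2.trans (hlog _ (by omega))
  · intro A M T hT h
    refine he' A (Nat.log 2 M) (M + 1) (T true) (T false) ?_ ?_ ?_ ?_ ?_
    · rcases Nat.eq_zero_or_pos M with rfl | hM
      · simp
      · exact (Nat.pow_log_le_self 2 (by omega)).trans (by omega)
    · rw [hT, vlist_eq]
    · rw [hT, vlist_eq]
    · intro j hj
      have := h true j hj
      rw [slice_true, Nat.mul_comm] at this
      exact this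
    · intro j hj
      have := h false j hj
      rw [slice_false, Nat.mul_comm] at this
      exact this

end Pool.Agent.H.MP_0447ec_lc.SL
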